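import Pool.Agent.N963.KL.Stm

/-!
Project KL, task GA2: the estimate on the staircase contour.
-/

set_option autoImplicit false

namespace Pool.Agent.N284.KL

open Complex Filter Topology MeasureTheory
open Pool.Agent.N963.KL (EE pt rp)

section

/-- the norm of the integrand of the Gamma function -/
lemma norm_EE (s : ℂ) {X : ℝ} (hX : 0 < X) (r θ : ℝ) :
    ‖EE s (pt X r θ)‖ = Real.exp (s.re * (Real.log X + r) - s.im * θ -
      X * Real.exp r * Real.cos θ) := by
  unfold EE pt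
  rw [Complex.norm_exp, sub_re, mul_re, Complex.exp_re]
  congr 1
  have e1 : (((Real.log X + r : ℝ) : ℂ) + (θ : ℂ) * I).re = Real.log X + r := by simp
  have e2 : (((Real.log X + r : ℝ) : ℂ) + (θ : ℂ) * I).im = θ := by simp
  rw [e1, e2, Real.exp_add, Real.exp_log hX]

lemma pt_im (X r θ : ℝ) : (pt X r θ).im = θ := by
  unfold pt
  simp

lemma pt_re (X r θ : ℝ) : (pt X r θ).re = Real.log X + r := by
  unfold pt
  simp

lemma norm_pt_sub (X r θ θ' : ℝ) : ‖pt X r θ - pt X 0 θ'‖ ≤ |r| + |θ - θ'| := by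
  have e : pt X r θ - pt X 0 θ' = (r : ℂ) + ((θ - θ' : ℝ) : ℂ) * I := by
    unfold pt
    push_cast
    ring
  rw [e]
  refine (norm_add_le _ _).trans ?_
  rw [norm_mul, Complex.norm_I, mul_one, Complex.norm_real, Complex.norm_real, Real.norm_eq_abs,
    Real.norm_eq_abs]

lemma rp_pt (X r θ : ℝ) : rp (Real.log X) (pt X r θ) = max r 0 := by
  unfold rp
  rw [pt_re]
  congr 1
  ring

/-- `t exp (-t) ≤ 1` -/
lemma mul_exp_neg_le (t : ℝ) : t * Real.exp (-t) ≤ 1 := by
  have h := Real.add_one_le_exp t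
  rw [Real.exp_neg, ← div_eq_mul_inv, div_le_one (Real.exp_pos t)]
  linarith

/-- `ρ exp (-c ρ) ≤ 1 / c` -/
lemma mul_exp_le {c : ℝ} (hc : 0 < c) (ρ : ℝ) : ρ * Real.exp (-(c * ρ)) ≤ 1 / c := by
  have h := mul_exp_neg_le (c * ρ)
  rw [le_div_iff₀ hc]
  calc ρ * Real.exp (-(c * ρ)) * c = c * ρ * Real.exp (-(c * ρ)) := by ring
    _ ≤ 1 := h

/-- the elementary part of the estimate on the left -/
lemma left_elem {Y h r : ℝ} (hY : 0 < Y) (h0 : 0 < h) (h1 : h ≤ 1) (hYh : 1 / Y = h ^ 2)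
    (hr : r ≤ 0) :
    (-r + h) * (Real.exp (r / 4) * Real.exp (-(Y * (1 - Real.exp r)))) ≤
      (4 * h ^ 2 + h) * Real.exp (Y / 4 * r) + 18 * h ^ 2 * Real.exp (1 / 8 * r) := by
  have hp1 : 0 ≤ (4 * h ^ 2 + h) * Real.exp (Y / 4 * r) := by positivity
  have hp2 : 0 ≤ 18 * h ^ 2 * Real.exp (1 / 8 * r) := by positivity
  rcases le_or_gt (-1) r with h2 | h2
  · have h3 : Real.exp r ≤ 1 + r / 2 := by
      have h4 := Real.add_one_le_exp (-r)
      have h5 : Real.exp r * Real.exp (-r) = 1 := by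
        rw [← Real.exp_add, add_neg_cancel, Real.exp_zero]
      have h6 := Real.exp_pos r
      nlinarith
    have h4 : Real.exp (-(Y * (1 - Real.exp r))) ≤ Real.exp (Y / 4 * r) * Real.exp (Y / 4 * r) := by
      rw [← Real.exp_add]
      apply Real.exp_le_exp.2
      nlinarith
    have h5 : Real.exp (r / 4) ≤ 1 := by
      rw [Real.exp_le_one_iff]
      linarith
    have h6 : -r * Real.exp (Y / 4 * r) ≤ 4 * h ^ 2 := by
      have h7 := mul_exp_le (c := Y / 4) (by linarith) (-r)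
      rw [show -(Y / 4 * -r) = Y / 4 * r by ring, show 1 / (Y / 4) = 4 * (1 / Y) by
        field_simp, hYh] at h7
      exact h7
    have h7 : Real.exp (Y / 4 * r) ≤ 1 := by
      rw [Real.exp_le_one_iff]
      nlinarith
    have h8 := Real.exp_pos (Y / 4 * r)
    have h9 : (-r + h) * Real.exp (Y / 4 * r) ≤ 4 * h ^ 2 + h := by
      nlinarith
    calc (-r + h) * (Real.exp (r / 4) * Real.exp (-(Y * (1 - Real.exp r))))
        ≤ (-r + h) * (1 * (Real.exp (Y / 4 * r) * Real.exp (Y / 4 * r))) := by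
          apply mul_le_mul_of_nonneg_left _ (by linarith)
          exact mul_le_mul h5 h4 (Real.exp_pos _).le zero_le_one
      _ = ((-r + h) * Real.exp (Y / 4 * r)) * Real.exp (Y / 4 * r) := by ring
      _ ≤ (4 * h ^ 2 + h) * Real.exp (Y / 4 * r) := mul_le_mul_of_nonneg_right h9 h8.le
      _ ≤ _ := by linarith
  · have h3 : Real.exp r ≤ 1 / 2 := by
      have h4 := Real.add_one_le_exp (-r)
      have h5 : Real.exp r * Real.exp (-r) = 1 := by
        rw [← Real.exp_add, add_neg_cancel, Real.exp_zero]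
      have h6 := Real.exp_pos r
      nlinarith
    have h4 : Real.exp (-(Y * (1 - Real.exp r))) ≤ 2 * h ^ 2 := by
      have h5 : Real.exp (-(Y * (1 - Real.exp r))) ≤ Real.exp (-(1 / 2 * Y)) := by
        apply Real.exp_le_exp.2
        nlinarith
      have h6 := Real.add_one_le_exp (1 / 2 * Y)
      have h7 : Real.exp (-(1 / 2 * Y)) ≤ 2 * (1 / Y) := by
        rw [Real.exp_neg, mul_one_div, inv_eq_one_div, div_le_div_iff₀ (Real.exp_pos _) hY]
        linarith
      rw [hYh] at h7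
      exact h5.trans h7
    have h5 : -r * Real.exp (1 / 8 * r) ≤ 8 := by
      have h7 := mul_exp_le (c := 1 / 8) (by norm_num) (-r)
      rw [show -(1 / 8 * -r) = 1 / 8 * r by ring] at h7
      norm_num at h7 ⊢
      linarith
    have h6 : Real.exp (r / 4) = Real.exp (1 / 8 * r) * Real.exp (1 / 8 * r) := by
      rw [← Real.exp_add]
      congr 1
      ring
    have h7 : Real.exp (1 / 8 * r) ≤ 1 := by
      rw [Real.exp_le_one_iff]
      linarith
    have h8 := Real.exp_pos (1 / 8 * r)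
    have h9 : (-r + h) * Real.exp (1 / 8 * r) ≤ 9 := by
      nlinarith
    calc (-r + h) * (Real.exp (r / 4) * Real.exp (-(Y * (1 - Real.exp r))))
        ≤ (-r + h) * (Real.exp (r / 4) * (2 * h ^ 2)) := by
          apply mul_le_mul_of_nonneg_left _ (by linarith)
          exact mul_le_mul_of_nonneg_left h4 (Real.exp_pos _).le
      _ = ((-r + h) * Real.exp (1 / 8 * r)) * (2 * h ^ 2 * Real.exp (1 / 8 * r)) := by
          rw [h6]
          ring
      _ ≤ 9 * (2 * h ^ 2 * Real.exp (1 / 8 * r)) :=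
          mul_le_mul_of_nonneg_right h9 (by positivity)
      _ = 18 * h ^ 2 * Real.exp (1 / 8 * r) := by ring
      _ ≤ _ := by linarith

/-- the elementary part of the estimate on the right -/
lemma right_elem {Y h r : ℝ} (hY : 0 < Y) (h0 : 0 < h) (hYh : 1 / Y = h ^ 2)
    (hr : 0 ≤ r) : (r + h) * Real.exp (-(Y / 2 * r)) ≤ (4 * h ^ 2 + h) * Real.exp (-(Y / 4) * r) := by
  have h6 : r * Real.exp (-(Y / 4 * r)) ≤ 4 * h ^ 2 := by
    have h7 := mul_exp_le (c := Y / 4) (by linarith) r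
    rw [show 1 / (Y / 4) = 4 * (1 / Y) by field_simp, hYh] at h7
    exact h7
  have h7 : Real.exp (-(Y / 4 * r)) ≤ 1 := by
    rw [Real.exp_le_one_iff]
    nlinarith
  have h8 := Real.exp_pos (-(Y / 4 * r))
  have h9 : (r + h) * Real.exp (-(Y / 4 * r)) ≤ 4 * h ^ 2 + h := by
    nlinarith
  have e1 : Real.exp (-(Y / 2 * r)) = Real.exp (-(Y / 4 * r)) * Real.exp (-(Y / 4 * r)) := by
    rw [← Real.exp_add]
    congr 1
    ring
  rw [e1, ← mul_assoc, show -(Y / 4) * r = -(Y / 4 * r) by ring]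
  exact mul_le_mul_of_nonneg_right h9 h8.le

variable {B X h a b : ℝ} {σ s : ℂ} {R : ℂ → ℂ}

/-- the common factor -/
noncomputable def DD (B X σr : ℝ) : ℝ :=
  Real.exp (3 * B) * (Real.exp (σr * Real.log X) * Real.exp (-(Real.pi * X / 2)))

lemma DD_pos (B X σr : ℝ) : 0 < DD B X σr := by unfold DD; positivity

/-- a bound for the integrand of the Gamma function in the strip -/
lemma EE_le (hX : 0 < X) (hB : ‖σ‖ ≤ B) (hs : s = σ + I * X) {r θ E : ℝ}
    (hθ : |θ| ≤ 3)
    (hE : σ.re * r - X * θ - X * Real.exp r * Real.cos θ ≤ -(Real.pi * X / 2) + E) :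
    ‖EE s (pt X r θ)‖ ≤ DD B X σ.re * Real.exp E := by
  rw [norm_EE s hX, hs]
  unfold DD
  rw [← Real.exp_add, ← Real.exp_add, ← Real.exp_add]
  apply Real.exp_le_exp.2
  have e1 : (σ + I * X).re = σ.re := by simp
  have e2 : (σ + I * X).im = σ.im + X := by simp
  rw [e1, e2]
  have h1 : -(σ.im * θ) ≤ 3 * B := by
    have h2 : |σ.im * θ| ≤ B * 3 := by
      rw [abs_mul]
      exact mul_le_mul ((Complex.abs_im_le_norm σ).trans hB) hθ (abs_nonneg _)
        ((norm_nonneg σ).trans hB)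
    have h3 := neg_le_of_abs_le h2
    linarith
  nlinarith

/-- the left part of the contour -/
lemma left_bd (hX : 1 ≤ X) (h0 : 0 < h) (h1 : h ≤ 1) (h3 : X * h ^ 3 = 1) (hB : ‖σ‖ ≤ B)
    (hσ : 1 / 4 ≤ σ.re) (hb : 0 ≤ b)
    (hR : ∀ v : ℂ, |v.im - Real.pi / 2| ≤ h → ‖R v‖ ≤ b * ‖v - pt X 0 (Real.pi / 2)‖ *
      Real.exp (a * (rp (Real.log X) v + rp (Real.log X) v ^ 2))) (hs : s = σ + I * X) :
    ‖∫ r in Set.Iic (0 : ℝ), EE s (pt X r (Real.pi / 2 + h)) * R (pt X r (Real.pi / 2 + h))‖ ≤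
      DD B X σ.re * b * (164 * h ^ 2) := by
  have hX0 : 0 < X := by linarith
  have hY : 0 < X * h := by positivity
  have hYh : 1 / (X * h) = h ^ 2 := by
    rw [div_eq_iff hY.ne']
    linarith
  have hpi := Real.pi_gt_three
  have hpi' := Real.pi_lt_d2
  have hD := DD_pos B X σ.re
  have i1 : IntegrableOn (fun r : ℝ => Real.exp (X * h / 4 * r)) (Set.Iic 0) :=
    integrableOn_exp_mul_Iic (by positivity) 0
  have i2 : IntegrableOn (fun r : ℝ => Real.exp (1 / 8 * r)) (Set.Iic 0) :=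
    integrableOn_exp_mul_Iic (by norm_num) 0
  have i3 : IntegrableOn (fun r : ℝ => DD B X σ.re * b * ((4 * h ^ 2 + h) * Real.exp (X * h / 4 * r) +
      18 * h ^ 2 * Real.exp (1 / 8 * r))) (Set.Iic 0) :=
    ((i1.const_mul _).add (i2.const_mul _)).const_mul _
  refine (norm_integral_le_of_norm_le i3 ?_).trans ?_
  · refine (ae_restrict_iff' measurableSet_Iic).2 (ae_of_all _ fun r hr => ?_)
    rw [Set.mem_Iic] at hr
    have hE := EE_le (r := r) (θ := Real.pi / 2 + h) (E := r / 4 - X * h * (1 - Real.exp r)) hX0 hB hs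
      (by rw [abs_of_pos (by positivity)]; linarith) (by
        rw [Real.cos_add, Real.cos_pi_div_two, Real.sin_pi_div_two]
        have hsin := Real.sin_le h0.le
        have h4 : X * Real.exp r * Real.sin h ≤ X * Real.exp r * h :=
          mul_le_mul_of_nonneg_left hsin (by positivity)
        nlinarith)
    have hR1 := hR (pt X r (Real.pi / 2 + h)) (by
      rw [pt_im, add_sub_cancel_left, abs_of_pos h0])
    rw [rp_pt, max_eq_right hr] at hR1
    have e0 : a * ((0 : ℝ) + 0 ^ 2) = 0 := by ring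
    rw [e0, Real.exp_zero, mul_one] at hR1
    have hR2 := norm_pt_sub X r (Real.pi / 2 + h) (Real.pi / 2)
    rw [add_sub_cancel_left, abs_of_pos h0, abs_of_nonpos hr] at hR2
    have hR3 : ‖R (pt X r (Real.pi / 2 + h))‖ ≤ b * (-r + h) :=
      hR1.trans (mul_le_mul_of_nonneg_left hR2 hb)
    rw [norm_mul]
    calc ‖EE s (pt X r (Real.pi / 2 + h))‖ * ‖R (pt X r (Real.pi / 2 + h))‖
        ≤ (DD B X σ.re * Real.exp (r / 4 - X * h * (1 - Real.exp r))) * (b * (-r + h)) :=
          mul_le_mul hE hR3 (norm_nonneg _) (by positivity)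
      _ = DD B X σ.re * b * ((-r + h) * (Real.exp (r / 4) *
            Real.exp (-(X * h * (1 - Real.exp r))))) := by
          rw [← Real.exp_add, sub_eq_add_neg]
          ring
      _ ≤ _ := mul_le_mul_of_nonneg_left (left_elem hY h0 h1 hYh hr) (by positivity)
  · rw [integral_const_mul, integral_add (i1.const_mul _) (i2.const_mul _), integral_const_mul,
      integral_const_mul, integral_exp_mul_Iic (by positivity), integral_exp_mul_Iic (by norm_num),
      mul_zero, mul_zero, Real.exp_zero]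
    apply mul_le_mul_of_nonneg_left _ (by positivity)
    have e1 : 1 / (X * h / 4) = 4 * h ^ 2 := by
      rw [← hYh]
      field_simp
    rw [e1]
    have h4 : h ^ 2 ≤ h := by nlinarith
    have h5 : 0 ≤ h ^ 2 := by positivity
    nlinarith

/-- the right part of the contour -/
lemma right_bd (hX : 1 ≤ X) (h0 : 0 < h) (h1 : h ≤ 1) (h3 : X * h ^ 3 = 1) (hB : ‖σ‖ ≤ B)
    (hσ : 1 / 4 ≤ σ.re) (ha : 0 ≤ a) (hab : 1 / 6 + 2 * a + B ≤ X * h / 2) (hb : 0 ≤ b)
    (hR : ∀ v : ℂ, |v.im - Real.pi / 2| ≤ h → ‖R v‖ ≤ b * ‖v - pt X 0 (Real.pi / 2)‖ *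
      Real.exp (a * (rp (Real.log X) v + rp (Real.log X) v ^ 2))) (hs : s = σ + I * X) :
    ‖∫ r in Set.Ioi (0 : ℝ), EE s (pt X r (Real.pi / 2 - h)) * R (pt X r (Real.pi / 2 - h))‖ ≤
      DD B X σ.re * b * (20 * Real.exp 1 * h ^ 2) := by
  have hX0 : 0 < X := by linarith
  have hY : 0 < X * h := by positivity
  have hYh : 1 / (X * h) = h ^ 2 := by
    rw [div_eq_iff hY.ne']
    linarith
  have hpi := Real.pi_gt_three
  have hpi' := Real.pi_lt_d2
  have hD := DD_pos B X σ.re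
  have hX4 : 0 < X * h / 4 := by positivity
  have i1 : IntegrableOn (fun r : ℝ => Real.exp (-(X * h / 4) * r)) (Set.Ioi 0) :=
    integrableOn_exp_mul_Ioi (neg_neg_of_pos hX4) 0
  have i3 : IntegrableOn (fun r : ℝ => DD B X σ.re * b * Real.exp 1 * ((4 * h ^ 2 + h) *
      Real.exp (-(X * h / 4) * r))) (Set.Ioi 0) := (i1.const_mul _).const_mul _
  have hσB : σ.re ≤ B := (Complex.re_le_norm σ).trans hB
  refine (norm_integral_le_of_norm_le i3 ?_).trans ?_
  · refine (ae_restrict_iff' measurableSet_Ioi).2 (ae_of_all _ fun r hr => ?_)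
    rw [Set.mem_Ioi] at hr
    have hq := Real.quadratic_le_exp_of_nonneg hr.le
    have hE := EE_le (r := r) (θ := Real.pi / 2 - h)
      (E := B * r - (X * h - 1 / 6) * (Real.exp r - 1) + 1 / 6) hX0 hB hs
      (by rw [abs_of_pos (by linarith)]; linarith) (by
        rw [Real.cos_sub, Real.cos_pi_div_two, Real.sin_pi_div_two]
        have hsin := (Real.sin_gt_sub_cube h0).le
        have h4 : X * Real.exp r * (h - h ^ 3 / 6) ≤ X * Real.exp r * Real.sin h :=
          mul_le_mul_of_nonneg_left hsin (by positivity)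
        have h5 : X * Real.exp r * (h - h ^ 3 / 6) = X * h * Real.exp r - Real.exp r / 6 := by
          calc X * Real.exp r * (h - h ^ 3 / 6) =
              X * h * Real.exp r - (X * h ^ 3) * Real.exp r / 6 := by ring
            _ = _ := by rw [h3, one_mul]
        have h6 : σ.re * r ≤ B * r := mul_le_mul_of_nonneg_right hσB hr.le
        nlinarith)
    have hR1 := hR (pt X r (Real.pi / 2 - h)) (by
      rw [pt_im, sub_sub_cancel_left, abs_neg, abs_of_pos h0])
    rw [rp_pt, max_eq_left hr.le] at hR1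
    have hR2 := norm_pt_sub X r (Real.pi / 2 - h) (Real.pi / 2)
    rw [sub_sub_cancel_left, abs_neg, abs_of_pos h0, abs_of_pos hr] at hR2
    have hR3 : ‖R (pt X r (Real.pi / 2 - h))‖ ≤ b * (r + h) * Real.exp (a * (r + r ^ 2)) :=
      hR1.trans (mul_le_mul_of_nonneg_right (mul_le_mul_of_nonneg_left hR2 hb)
        (Real.exp_pos _).le)
    have hexp : B * r - (X * h - 1 / 6) * (Real.exp r - 1) + 1 / 6 + a * (r + r ^ 2) ≤
        1 + -(X * h / 2 * r) := by
      have h4 : a * (r + r ^ 2) ≤ 2 * a * (Real.exp r - 1) := by nlinarith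
      have h5 : B * r ≤ B * (Real.exp r - 1) := by
        apply mul_le_mul_of_nonneg_left _ ((norm_nonneg σ).trans hB)
        nlinarith
      have h6 : r ≤ Real.exp r - 1 := by nlinarith
      have h7 : 0 ≤ (X * h / 2 - 1 / 6 - 2 * a - B) * (Real.exp r - 1) :=
        mul_nonneg (by linarith) (by linarith)
      have h8 : X * h / 2 * r ≤ X * h / 2 * (Real.exp r - 1) :=
        mul_le_mul_of_nonneg_left h6 (by positivity)
      nlinarith
    rw [norm_mul]
    calc ‖EE s (pt X r (Real.pi / 2 - h))‖ * ‖R (pt X r (Real.pi / 2 - h))‖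
        ≤ (DD B X σ.re * Real.exp (B * r - (X * h - 1 / 6) * (Real.exp r - 1) + 1 / 6)) *
          (b * (r + h) * Real.exp (a * (r + r ^ 2))) :=
          mul_le_mul hE hR3 (norm_nonneg _) (by positivity)
      _ = DD B X σ.re * b * (r + h) *
          Real.exp (B * r - (X * h - 1 / 6) * (Real.exp r - 1) + 1 / 6 + a * (r + r ^ 2)) := by
          rw [Real.exp_add (B * r - (X * h - 1 / 6) * (Real.exp r - 1) + 1 / 6)]
          ring
      _ ≤ DD B X σ.re * b * (r + h) * Real.exp (1 + -(X * h / 2 * r)) :=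
          mul_le_mul_of_nonneg_left (Real.exp_le_exp.2 hexp) (by positivity)
      _ = DD B X σ.re * b * Real.exp 1 * ((r + h) * Real.exp (-(X * h / 2 * r))) := by
          rw [Real.exp_add]
          ring
      _ ≤ _ := mul_le_mul_of_nonneg_left (right_elem hY h0 hYh hr.le) (by positivity)
  · rw [integral_const_mul, integral_const_mul, integral_exp_mul_Ioi (neg_neg_of_pos hX4),
      mul_zero, Real.exp_zero]
    have e1 : -1 / (-(X * h / 4)) = 4 * h ^ 2 := by
      rw [← hYh]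
      field_simp
    rw [e1]
    have h4 : h ^ 2 ≤ h := by nlinarith
    have h5 : 0 ≤ h ^ 2 := by positivity
    have h6 : (4 * h ^ 2 + h) * (4 * h ^ 2) ≤ 20 * h ^ 2 := by nlinarith
    calc DD B X σ.re * b * Real.exp 1 * ((4 * h ^ 2 + h) * (4 * h ^ 2))
        ≤ DD B X σ.re * b * Real.exp 1 * (20 * h ^ 2) :=
          mul_le_mul_of_nonneg_left h6 (by positivity)
      _ = _ := by ring

/-- the vertical part of the contour -/
lemma vert_bd (hX : 1 ≤ X) (h0 : 0 < h) (h1 : h ≤ 1) (h3 : X * h ^ 3 = 1) (hB : ‖σ‖ ≤ B)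
    (hb : 0 ≤ b)
    (hR : ∀ v : ℂ, |v.im - Real.pi / 2| ≤ h → ‖R v‖ ≤ b * ‖v - pt X 0 (Real.pi / 2)‖ *
      Real.exp (a * (rp (Real.log X) v + rp (Real.log X) v ^ 2))) (hs : s = σ + I * X) :
    ‖∫ θ in (Real.pi / 2 - h)..(Real.pi / 2 + h), EE s (pt X 0 θ) * R (pt X 0 θ)‖ ≤
      DD B X σ.re * b * (2 * Real.exp 1 * h ^ 2) := by
  have hX0 : 0 < X := by linarith
  have hpi := Real.pi_gt_three
  have hpi' := Real.pi_lt_d2
  have hD := DD_pos B X σ.re
  have key : ∀ θ ∈ Set.uIoc (Real.pi / 2 - h) (Real.pi / 2 + h),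
      ‖EE s (pt X 0 θ) * R (pt X 0 θ)‖ ≤ DD B X σ.re * Real.exp 1 * (b * h) := by
    intro θ hθ
    rw [Set.uIoc_of_le (by linarith), Set.mem_Ioc] at hθ
    obtain ⟨p, rfl⟩ : ∃ p, θ = Real.pi / 2 + p := ⟨θ - Real.pi / 2, by ring⟩
    have hp : |p| ≤ h := by
      rw [abs_le]
      constructor <;> linarith
    have hE := EE_le (r := 0) (θ := Real.pi / 2 + p) (E := 1) hX0 hB hs
      (by rw [abs_of_pos (by linarith)]; linarith) (by
        rw [Real.cos_add, Real.cos_pi_div_two, Real.sin_pi_div_two, Real.exp_zero]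
        rcases le_or_gt 0 p with hp0 | hp0
        · have hsin := Real.sin_le hp0
          nlinarith
        · have hsin := (Real.sin_gt_sub_cube (neg_pos.2 hp0)).le
          rw [Real.sin_neg] at hsin
          rw [abs_of_neg hp0] at hp
          have h4 : (-p) ^ 3 ≤ h ^ 3 := pow_le_pow_left₀ (by linarith) hp 3
          have h5 : X * (-p) ^ 3 ≤ 1 := by
            rw [← h3]
            exact mul_le_mul_of_nonneg_left h4 hX0.le
          have h6 : X * Real.sin p ≤ X * (p + (-p) ^ 3 / 6) :=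
            mul_le_mul_of_nonneg_left (by linarith) hX0.le
          nlinarith)
    have hR1 := hR (pt X 0 (Real.pi / 2 + p)) (by
      rw [pt_im, add_sub_cancel_left]
      exact hp)
    rw [rp_pt, max_self] at hR1
    have e0 : a * ((0 : ℝ) + 0 ^ 2) = 0 := by ring
    rw [e0, Real.exp_zero, mul_one] at hR1
    have hR2 := norm_pt_sub X 0 (Real.pi / 2 + p) (Real.pi / 2)
    rw [add_sub_cancel_left, abs_zero, zero_add] at hR2
    rw [norm_mul]
    exact mul_le_mul hE (hR1.trans (mul_le_mul_of_nonneg_left (hR2.trans hp) hb))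
      (norm_nonneg _) (by positivity)
  refine (intervalIntegral.norm_integral_le_of_norm_le_const key).trans (le_of_eq ?_)
  rw [show Real.pi / 2 + h - (Real.pi / 2 - h) = 2 * h by ring, abs_of_pos (by linarith)]
  ring

end

/-- GA2 -/
theorem ga2 : Pool.Agent.N963.KL.S_GA2 := by
  intro B
  refine ⟨Real.exp (3 * |B|) * (164 + 22 * Real.exp 1), max (2 ^ 12) ((4 * |B| + 1) ^ 2), ?_, ?_,
    ?_⟩
  · have h1 : 1 ≤ Real.exp (3 * |B|) := Real.one_le_exp (by positivity)
    have h2 := Real.exp_pos 1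
    nlinarith
  · exact le_trans (by norm_num) (le_max_left _ _)
  intro X σ hX hσB hσ a b R ha haX hb hR h hh s hs
  have hX12 : (2 : ℝ) ^ 12 ≤ X := (le_max_left _ _).trans hX
  have hXB : (4 * |B| + 1) ^ 2 ≤ X := (le_max_right _ _).trans hX
  have hX1 : 1 ≤ X := le_trans (by norm_num) hX12
  have hX0 : 0 < X := by linarith
  have h0 : 0 < h := by
    rw [hh]
    exact Real.rpow_pos_of_pos hX0 _
  have h1 : h ≤ 1 := by
    rw [hh]
    exact Real.rpow_le_one_of_one_le_of_nonpos hX1 (by norm_num)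
  have h3 : X * h ^ 3 = 1 := by
    rw [hh, ← Real.rpow_natCast, ← Real.rpow_mul hX0.le]
    norm_num
    rw [Real.rpow_neg_one]
    exact mul_inv_cancel₀ hX0.ne'
  have hBB : ‖σ‖ ≤ |B| := hσB.trans (le_abs_self B)
  have hXh : X * h = X ^ (2 / 3 : ℝ) := by
    rw [hh]
    nth_rewrite 1 [← Real.rpow_one X]
    rw [← Real.rpow_add hX0]
    norm_num
  have hab : 1 / 6 + 2 * a + |B| ≤ X * h / 2 := by
    have g1 : 4 * |B| + 1 ≤ X ^ (2 / 3 : ℝ) := by
      have g2 : 4 * |B| + 1 ≤ X ^ (1 / 2 : ℝ) := by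
        rw [← Real.sqrt_eq_rpow]
        exact Real.le_sqrt_of_sq_le hXB
      exact g2.trans (Real.rpow_le_rpow_of_exponent_le hX1 (by norm_num))
    have g3 : (32 : ℝ) ≤ X ^ (5 / 12 : ℝ) := by
      have g4 : ((2 : ℝ) ^ 12) ^ (5 / 12 : ℝ) ≤ X ^ (5 / 12 : ℝ) :=
        Real.rpow_le_rpow (by norm_num) hX12 (by norm_num)
      have g5 : ((2 : ℝ) ^ 12) ^ (5 / 12 : ℝ) = 32 := by
        rw [← Real.rpow_natCast, ← Real.rpow_mul (by norm_num)]
        norm_num
      rwa [g5] at g4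
    have g6 : X ^ (2 / 3 : ℝ) = X ^ (1 / 4 : ℝ) * X ^ (5 / 12 : ℝ) := by
      rw [← Real.rpow_add hX0]
      norm_num
    have g7 : 0 < X ^ (1 / 4 : ℝ) := Real.rpow_pos_of_pos hX0 _
    have g8 : 32 * X ^ (1 / 4 : ℝ) ≤ X ^ (2 / 3 : ℝ) := by
      rw [g6]
      nlinarith
    have g9 : 1 ≤ X ^ (1 / 4 : ℝ) := Real.one_le_rpow hX1 (by norm_num)
    rw [hXh]
    have := abs_nonneg B
    linarith
  have hR' : ∀ v : ℂ, |v.im - Real.pi / 2| ≤ h → ‖R v‖ ≤ b * ‖v - pt X 0 (Real.pi / 2)‖ *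
      Real.exp (a * (rp (Real.log X) v + rp (Real.log X) v ^ 2)) := by
    intro v hv
    rw [hh] at hv
    exact hR v hv
  have b1 := left_bd hX1 h0 h1 h3 hBB hσ hb hR' hs
  have b2 := right_bd hX1 h0 h1 h3 hBB hσ ha hab hb hR' hs
  have b3 := vert_bd hX1 h0 h1 h3 hBB hb hR' hs
  have e1 : X ^ (σ.re - 2 / 3) = Real.exp (σ.re * Real.log X) * h ^ 2 := by
    rw [Real.rpow_sub hX0, ← hXh, Real.rpow_def_of_pos hX0, mul_comm (Real.log X)]
    rw [div_eq_iff (by positivity)]
    linear_combination (-Real.exp (σ.re * Real.log X)) * h3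
  rw [e1]
  unfold DD at b1 b2 b3
  linarith

end Pool.Agent.N284.KL
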